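import Pool.Agent.helper83.LS.Spec

set_option autoImplicit false

/-!
# RW2
-/

namespace LSH

theorem RW2_gen {S T : Set Pt} (h : Gen S) (hT : T ⊆ S) : Gen T :=
  fun a ha b hb hab => h a (hT ha) b (hT hb) hab

theorem RW2_lt (hOB : OB_stmt) {e : Edge} {z : Pt} (hz : e.on z) {c : ℝ} (ha : e.a.1 < c)
    (hb : e.b.1 < c) : z.1 < c := by
  have h := (hOB.1 e z hz).1
  rw [Set.mem_uIcc] at h
  rcases h with h | h <;> linarith [h.1, h.2]

theorem RW2_gt (hOB : OB_stmt) {e : Edge} {z : Pt} (hz : e.on z) {c : ℝ} (ha : c < e.a.1)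
    (hb : c < e.b.1) : c < z.1 := by
  have h := (hOB.1 e z hz).1
  rw [Set.mem_uIcc] at h
  rcases h with h | h <;> linarith [h.1, h.2]

theorem RW2_gt2 (hOB : OB_stmt) {e : Edge} {z : Pt} (hz : e.on z) {c : ℝ} (ha : c < e.a.2)
    (hb : c < e.b.2) : c < z.2 := by
  have h := (hOB.1 e z hz).2
  rw [Set.mem_uIcc] at h
  rcases h with h | h <;> linarith [h.1, h.2]

theorem RW2_onT (a b z : Pt) : (⟨a, b, true⟩ : Edge).on z ↔
    ((z.2 = a.2 ∧ z.1 ∈ Set.uIcc a.1 b.1) ∨ (z.1 = b.1 ∧ z.2 ∈ Set.uIcc a.2 b.2)) := by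
  simp [Edge.on]

theorem RW2_onF (a b z : Pt) : (⟨a, b, false⟩ : Edge).on z ↔
    ((z.1 = a.1 ∧ z.2 ∈ Set.uIcc a.2 b.2) ∨ (z.2 = b.2 ∧ z.1 ∈ Set.uIcc a.1 b.1)) := by
  simp [Edge.on]

/-- On the line through `c` the new edges meet only in `c`. -/
theorem RW2_exit {c r z : Pt} {k : Bool} (hr : c.1 < r.1) (hk : k = true ∨ c.2 < r.2)
    (hz : (⟨c, r, k⟩ : Edge).on z) (hz1 : z.1 ≤ c.1) : z.1 = c.1 ∧ c.2 ≤ z.2 ∧
      (k = true → z = c) := by
  cases k with
  | true =>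
    rw [RW2_onT] at hz
    rcases hz with ⟨h1, h2⟩ | ⟨h1, h2⟩
    · rw [Set.mem_uIcc] at h2
      have h3 : z.1 = c.1 := by rcases h2 with h2 | h2 <;> linarith [h2.1, h2.2]
      exact ⟨h3, h1.ge, fun _ => Prod.ext h3 h1⟩
    · exfalso
      linarith
  | false =>
    have hk' : c.2 < r.2 := by simpa using hk
    rw [RW2_onF] at hz
    rcases hz with ⟨h1, h2⟩ | ⟨h1, h2⟩
    · rw [Set.mem_uIcc] at h2
      refine ⟨h1, ?_, by simp⟩
      rcases h2 with h2 | h2 <;> linarith [h2.1, h2.2]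
    · rw [Set.mem_uIcc] at h2
      have h3 : z.1 = c.1 := by rcases h2 with h2 | h2 <;> linarith [h2.1, h2.2]
      exact ⟨h3, by linarith, by simp⟩

theorem RW2_left {c r z : Pt} (hr : r.1 < c.1) (hz : (⟨c, r, true⟩ : Edge).on z)
    (hz1 : c.1 ≤ z.1) : z = c := by
  rw [RW2_onT] at hz
  rcases hz with ⟨h1, h2⟩ | ⟨h1, h2⟩
  · rw [Set.mem_uIcc] at h2
    have h3 : z.1 = c.1 := by rcases h2 with h2 | h2 <;> linarith [h2.1, h2.2]
    exact Prod.ext h3 h1
  · exfalso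
    linarith

theorem RW2 (hOB : OB_stmt) (hEE : EE_stmt) (hAB : AB_stmt) (hDP : DP_stmt) (hDW : DW_stmt) :
    RW2_stmt := by
  intro s t hs ht S Q p hS hG hp hQS hQ hsep hup
  have hQne : Q.Nonempty := by
    rw [← Finset.card_pos, hQ]
    omega
  obtain ⟨c, hcQ, hcmax⟩ := Finset.exists_max_image Q (fun q => q.1) hQne
  have hcS : c ∈ S := hQS hcQ
  have hYlt : ∀ y ∈ Q.erase c, y.1 < c.1 := by
    intro y hy
    have hyQ := Finset.mem_of_mem_erase hy
    have hne := Finset.ne_of_mem_erase hy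
    have h1 := hcmax y hyQ
    have h2 := (hG y (Set.mem_insert_of_mem _ (hQS hyQ)) c (Set.mem_insert_of_mem _ hcS) hne).1
    exact lt_of_le_of_ne h1 h2
  have hXgt : ∀ x ∈ S \ Q, c.1 < x.1 := fun x hx => hsep c hcQ x hx
  have hGY : Gen (insert c ((Q.erase c : Finset Pt) : Set Pt)) := by
    refine RW2_gen hG ?_
    intro y hy
    rcases hy with hy | hy
    · rw [hy]
      exact Set.mem_insert_of_mem _ hcS
    · exact Set.mem_insert_of_mem _ (hQS (Finset.mem_of_mem_erase hy))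
  have hGX : Gen (insert c ((S \ Q : Finset Pt) : Set Pt)) := by
    refine RW2_gen hG ?_
    intro y hy
    rcases hy with hy | hy
    · rw [hy]
      exact Set.mem_insert_of_mem _ hcS
    · exact Set.mem_insert_of_mem _ (Finset.mem_sdiff.1 hy).1
  have hYc : (Q.erase c).card = s.size := by
    rw [Finset.card_erase_of_mem hcQ, hQ]
    omega
  have hXc : (S \ Q).card = t.size := by
    rw [Finset.card_sdiff_of_subset hQS, hS, hQ]
    simp only [BT.size]
    omega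
  obtain ⟨d, hd⟩ := (hDP s hs (Q.erase c) c hYc hGY).1 hYlt
  obtain ⟨e, k, he, hk⟩ := (hDW t ht (S \ Q) c hXc hGX).1 hXgt
  -- facts on the edges
  have hdE : ∀ f ∈ d.edges, f.a ∈ Q.erase c ∧ f.b ∈ Q.erase c := by
    intro f hf
    have := hEE.1 d f hf
    rw [hd.2.1] at this
    exact this
  have hdr : d.root ∈ Q.erase c := by
    have := hEE.2.1 d
    rw [hd.2.1] at this
    exact this
  have heE : ∀ f ∈ e.edges, f.a ∈ S \ Q ∧ f.b ∈ S \ Q := by
    intro f hf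
    have := hEE.1 e f hf
    rw [he.2.1] at this
    exact this
  have her : e.root ∈ S \ Q := by
    have := hEE.2.1 e
    rw [he.2.1] at this
    exact this
  have hpc : p.1 < c.1 := hp c hcS
  have hpc2 : p.2 < c.2 := hup c hcQ
  have hS' : S = insert c (Q.erase c ∪ (S \ Q)) := by
    rw [← Finset.insert_union, Finset.insert_erase hcQ, Finset.union_sdiff_of_subset hQS]
  refine ⟨.br c true d k e, ?_⟩
  rw [hS']
  -- the edges to the right of `c`
  have hright : ∀ g ∈ att c k e, ∀ z : Pt, g.on z → z.1 ≤ c.1 → g.a = c ∧ z.1 = c.1 ∧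
      c.2 ≤ z.2 := by
    intro g hg z hz hz1
    rcases List.mem_cons.1 hg with hg | hg
    · subst hg
      obtain ⟨h1, h2, -⟩ := RW2_exit (hXgt _ her) hk hz hz1
      exact ⟨rfl, h1, h2⟩
    · exfalso
      obtain ⟨h1, h2⟩ := heE g hg
      have := RW2_gt hOB hz (hXgt _ h1) (hXgt _ h2)
      linarith
  -- the edges to the left of `c`
  have hleft : ∀ f ∈ att c true d, ∀ z : Pt, f.on z → c.1 ≤ z.1 → f.a = c ∧ z = c := by
    intro f hf z hz hz1
    rcases List.mem_cons.1 hf with hf | hf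
    · subst hf
      exact ⟨rfl, RW2_left (hYlt _ hdr) hz hz1⟩
    · exfalso
      obtain ⟨h1, h2⟩ := hdE f hf
      have := RW2_lt hOB hz (hYlt _ h1) (hYlt _ h2)
      linarith
  have hleft2 : ∀ f ∈ att c true d, ∀ z : Pt, f.on z → z.1 ≤ c.1 := by
    intro f hf z hz
    rcases List.mem_cons.1 hf with hf | hf
    · subst hf
      by_contra hcon
      have hcon := lt_of_not_ge hcon
      have := RW2_left (hYlt _ hdr) hz hcon.le
      rw [this] at hcon
      exact lt_irrefl _ hcon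
    · obtain ⟨h1, h2⟩ := hdE f hf
      exact (RW2_lt hOB hz (hYlt _ h1) (hYlt _ h2)).le
  have hleft3 : ∀ f ∈ att c true d, ∀ z : Pt, f.on z → p.2 < z.2 := by
    intro f hf z hz
    have hup' : ∀ y ∈ Q.erase c, p.2 < y.2 := fun y hy => hup y (Finset.mem_of_mem_erase hy)
    rcases List.mem_cons.1 hf with hf | hf
    · subst hf
      exact RW2_gt2 hOB hz hpc2 (hup' _ hdr)
    · obtain ⟨h1, h2⟩ := hdE f hf
      exact RW2_gt2 hOB hz (hup' _ h1) (hup' _ h2)
  refine hAB p c true true k s t (Q.erase c) (S \ Q) d e hd he ?_ (Finset.notMem_erase c Q) ?_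
    ?_ ?_ ?_
  · rw [Finset.disjoint_left]
    intro x hx hx2
    exact (Finset.mem_sdiff.1 hx2).2 (Finset.mem_of_mem_erase hx)
  · intro hc
    exact (Finset.mem_sdiff.1 hc).2 hcQ
  · intro f hf z hz hfz
    rw [RW2_onT] at hz
    rcases hz with ⟨h1, h2⟩ | ⟨h1, h2⟩
    · exfalso
      have := hleft3 f hf z hfz
      linarith
    · obtain ⟨h3, h4⟩ := hleft f hf z hfz h1.ge
      exact ⟨Or.inr h4, Or.inl (h4.trans h3.symm)⟩
  · intro g hg z hz hgz
    have hz1 : z.1 ≤ c.1 := by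
      rw [RW2_onT] at hz
      rcases hz with ⟨h1, h2⟩ | ⟨h1, h2⟩
      · rw [Set.mem_uIcc] at h2
        rcases h2 with h2 | h2 <;> linarith [h2.1, h2.2]
      · exact h1.le
    obtain ⟨h3, h4, h5⟩ := hright g hg z hgz hz1
    have hzc : z = c := by
      refine Prod.ext h4 ?_
      rw [RW2_onT] at hz
      rcases hz with ⟨h1, h2⟩ | ⟨h1, h2⟩
      · linarith
      · rw [Set.mem_uIcc] at h2
        rcases h2 with h2 | h2 <;> linarith [h2.1, h2.2]
    exact ⟨Or.inr hzc, Or.inl (hzc.trans h3.symm)⟩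
  · intro f hf g hg z hfz hgz
    have hz1 := hleft2 f hf z hfz
    obtain ⟨h3, h4, h5⟩ := hright g hg z hgz hz1
    obtain ⟨h6, h7⟩ := hleft f hf z hfz h4.ge
    exact ⟨Or.inl (h7.trans h6.symm), Or.inl (h7.trans h3.symm)⟩

end LSH
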